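import Mathlib
import Pool.Agent.H67.BJY

set_option autoImplicit false

open Pool.Agent.H67.BJY

namespace Pool.Agent.Results.MP_e82622_co.BangJensenYeo

/-- For all `k` and all `l ≤ 2 k`: every `k`-arc-strong and `l`-arc-antistrong digraph has two
arc-disjoint strong spanning subdigraphs if and only if every `k`-arc-strong digraph has. -/
theorem result (k l : ℕ) (hl : l ≤ 2 * k) :
    (∀ (V : Type) [Fintype V] [DecidableEq V] (A : Finset (V × V)),
      (∀ v : V, (v, v) ∉ A) → ArcStrong k A → ArcAntistrong l A → TwoStrong A) ↔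
    (∀ (V : Type) [Fintype V] [DecidableEq V] (A : Finset (V × V)),
      (∀ v : V, (v, v) ∉ A) → ArcStrong k A → TwoStrong A) := by
  constructor
  · intro h V _ _ A hA hs
    have h1 := h (V × Fin (2 * k + 1 + 1)) (blow (2 * k + 1) A) (blow_loopless _ A hA)
      (blow_arcStrong (2 * k + 1) A (by omega) hs)
      (blow_antistrong (2 * k + 1) A hl (by omega) hs)
    exact twoStrong_down (2 * k + 1) A h1
  · intro h V _ _ A hA hs _
    exact h V A hA hs

end Pool.Agent.Results.MP_e82622_co.BangJensenYeo
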