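import Pool.Agent.H68.OS.FIN2

set_option autoImplicit false

open Pool.Agent.H67.BJY Pool.Agent.H68.BJ Pool.Agent.H68.OS

namespace Pool.Agent.Results.MP_e82622_co.OneSided

/-- Let `ℓ ≥ 1`, `K ≥ 12 ℓ² x (2 log₂ (ℓ² x) + 11)` and let `A` be a `K`-arc-strong digraph on
`n` vertices in which every set of pairwise non-adjacent vertices of out-degree `< n / x` has at
most `x` elements, or every set of pairwise non-adjacent vertices of in-degree `< n / x` has at
most `x` elements (one of the two conditions is enough; for instance: minimum out-degree at least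
`n / x`, with arbitrary in-degrees).  Then `A` contains `ℓ` pairwise arc-disjoint strong spanning
subdigraphs. -/
theorem result (ℓ x K : ℕ) (hℓ : 1 ≤ ℓ)
    (hK : 12 * (ℓ ^ 2 * x) * (2 * Nat.log 2 (ℓ ^ 2 * x) + 11) ≤ K)
    (V : Type) [Fintype V] [DecidableEq V] (A : Finset (V × V))
    (hA : ∀ v : V, (v, v) ∉ A) (hs : ArcStrong K A)
    (h : (∀ I : Finset V, Indep A I → (∀ v ∈ I, x * outDeg A v < Fintype.card V) → I.card ≤ x) ∨
      (∀ I : Finset V, Indep A I → (∀ v ∈ I, x * inDeg A v < Fintype.card V) → I.card ≤ x)) :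
    ∃ B : Fin ℓ → Finset (V × V), (∀ i, B i ⊆ A) ∧ (∀ i j, i ≠ j → Disjoint (B i) (B j)) ∧
      ∀ i u v, Relation.ReflTransGen (fun a b : V => (a, b) ∈ B i) u v :=
  one_sided_or ℓ x K hℓ hK A hA hs h

end Pool.Agent.Results.MP_e82622_co.OneSided
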